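import Pool.Agent.Helper53.GP.TieCol
import Pool.Agent.Helper28.XS.Order

/-!
# The colouring of a polycube with ties is a field with back steps (project TIE, MP_409f7f_co)
-/

set_option autoImplicit false

namespace Pool.Agent.Helper48.TIE

open Pool.Agent.Helper17.UF Pool.Agent.Helper84.LD Pool.Agent.Helper53.GP
  Pool.Agent.Helper16.LD Pool.Agent.Helper28.XS Relation

variable {P : Finset Cube}

/-! ### Faces with normal `px` and `nx` -/

theorem face_px (hB : Blk P) {v : Cube} (h : IsFace P (v, Dir.px)) : v.1 % 4 = 3 := by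
  obtain ⟨h1, h2⟩ := h
  simp only at h1 h2
  by_contra hc
  apply h2
  rw [hB (v + Dir.px.vec)]
  rw [hB v] at h1
  have e : ((4 * ((v + Dir.px.vec).1 / 4), (v + Dir.px.vec).2) : Cube) = (4 * (v.1 / 4), v.2) := by
    obtain ⟨x, y, z⟩ := v
    simp only at hc
    simp only [Dir.vec, Prod.mk_add_mk, add_zero, Prod.mk.injEq, and_true]
    omega
  rw [e]
  exact h1

theorem face_nx (hB : Blk P) {v : Cube} (h : IsFace P (v, Dir.nx)) : v.1 % 4 = 0 := by
  obtain ⟨h1, h2⟩ := h
  simp only at h1 h2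
  by_contra hc
  apply h2
  rw [hB (v + Dir.nx.vec)]
  rw [hB v] at h1
  have e : ((4 * ((v + Dir.nx.vec).1 / 4), (v + Dir.nx.vec).2) : Cube) = (4 * (v.1 / 4), v.2) := by
    obtain ⟨x, y, z⟩ := v
    simp only at hc
    simp only [Dir.vec, Prod.mk_add_mk, add_zero, Prod.mk.injEq, and_true]
    omega
  rw [e]
  exact h1

theorem onF_px_mod (hB : Blk P) {v : Cube} (h : OnF P Dir.px v) : v.1 % 4 = 0 := by
  obtain ⟨A, t, w, hA, h1, h2, h3, -, rfl⟩ := h
  obtain ⟨u, d⟩ := A
  simp only at h1
  subst h1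
  rw [crn_fst]
  have k : ∀ w : Dir, Dir.perp Dir.px w = true → (pp w).1 = 0 := by decide
  rw [k t h2, k w h3, show (pp Dir.px).1 = 1 from rfl]
  have := face_px hB hA
  simp only
  omega

theorem onF_nx_mod (hB : Blk P) {v : Cube} (h : OnF P Dir.nx v) : v.1 % 4 = 0 := by
  obtain ⟨A, t, w, hA, h1, h2, h3, -, rfl⟩ := h
  obtain ⟨u, d⟩ := A
  simp only at h1
  subst h1
  rw [crn_fst]
  have k : ∀ w : Dir, Dir.perp Dir.nx w = true → (pp w).1 = 0 := by decide
  rw [k t h2, k w h3, show (pp Dir.nx).1 = 0 from rfl]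
  have := face_nx hB hA
  simp only
  omega

/-! ### Walls -/

section walls

variable (hM : Man P) (hB : Blk P) (hF : FlatEven P) (hN : NoOpp P Dir.px)

include hM hB hF hN

theorem cr_away {A : Face} (hA : IsFace P A) (hw : Wall A) {h k : Hd}
    (hh : h = Hd.N ∨ h = Hd.S) (hk : k = Hd.E ∨ k = Hd.W)
    (hne : ht A.1 (dA true eCan A h) ≠ lev A) :
    cTie P (cr true eCan A h k) = decide (h = Hd.N) := by
  have hl := lateral_axis (A := A) hk
  have h1 := cTie_wall hM hF hN (fun v hv => face_nx hB hv) hA hw (dA_wall hw hh) hl.1 hl.2 hne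
  unfold cr
  rw [h1]
  exact decide_eq_decide.2 (away_colour hw hh hne)

theorem wall_mono {A : Face} (hA : IsFace P A) (hw : Wall A) {k : Hd} (hk : k = Hd.E ∨ k = Hd.W)
    (h1 : cTie P (cr true eCan A Hd.S k) = true) : cTie P (cr true eCan A Hd.N k) = true := by
  rcases wall_one hw with ⟨-, h2⟩ | ⟨h2, -⟩
  · have := cr_away hM hB hF hN hA hw (Or.inr rfl) hk h2
    rw [h1] at this
    exact absurd this (by decide)
  · have := cr_away hM hB hF hN hA hw (Or.inl rfl) hk h2
    rw [this]; decide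

theorem tie_top {A : Face} (hA : IsFace P A) {k : Hd} (hk : k = Hd.E ∨ k = Hd.W)
    (h1 : ¬ Cmp P true eCan A Hd.N) : cTie P (cr true eCan A Hd.N k) = true := by
  by_cases hw : Wall A
  · rw [cmp_wall hw (Or.inl rfl)] at h1
    have := cr_away hM hB hF hN hA hw (Or.inl rfl) hk h1
    rw [this]; decide
  · exact absurd (cmp_flat hw (Or.inl rfl)) h1

theorem tie_bot {A : Face} (hA : IsFace P A) {k : Hd} (hk : k = Hd.E ∨ k = Hd.W)
    (h1 : ¬ Cmp P true eCan A Hd.S) : cTie P (cr true eCan A Hd.S k) = false := by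
  by_cases hw : Wall A
  · rw [cmp_wall hw (Or.inr rfl)] at h1
    have := cr_away hM hB hF hN hA hw (Or.inr rfl) hk h1
    rw [this]; decide
  · exact absurd (cmp_flat hw (Or.inr rfl)) h1

end walls

/-! ### Flat faces -/

theorem eCan_even {A : Face} (h : lev A % 2 = 0) : (eCan A).axis = 0 := by
  rw [eCan, neg_axis, dk_axis, if_pos h]

theorem flat_cr_z {A : Face} (hA : ¬ Wall A) (hl : lev A % 2 = 0) {h k : Hd}
    (hh : h = Hd.N ∨ h = Hd.S) (hk : k = Hd.E ∨ k = Hd.W) :
    (cr true eCan A h k).2.2 = lev A := by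
  obtain ⟨v, d⟩ := A
  have hd : d.axis = 2 := by
    by_contra hc
    exact hA hc
  have key : ∀ (d e : Dir), d.axis = 2 → e.axis = 0 → ∀ h : Hd,
      (pp (dirH true d e h)).2.2 = 0 := by decide
  have hax := eCan_even hl
  unfold cr dA
  rw [crn_z, key d _ hd hax, key d _ hd hax]
  rcases axis2 hd with rfl | rfl
  · rw [lev_pz]
    simp only [pp]
    ring
  · rw [lev_nz]
    simp only [pp]
    ring

theorem flat_cr_x {A : Face} (hA : ¬ Wall A) (hl : lev A % 2 = 0) {h k : Hd}
    (hh : h = Hd.N ∨ h = Hd.S) (hk : k = Hd.E ∨ k = Hd.W) :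
    (lev A % 4 = 0 → (cr true eCan A h k).1 = if k = Hd.E then A.1.1 else A.1.1 + 1) ∧
    (lev A % 4 = 2 → (cr true eCan A h k).1 = if k = Hd.E then A.1.1 + 1 else A.1.1) := by
  obtain ⟨v, d⟩ := A
  have hd : d.axis = 2 := by
    by_contra hc
    exact hA hc
  have key : ∀ (d e : Dir), d.axis = 2 → e.axis = 0 → ∀ h : Hd, (h = Hd.N ∨ h = Hd.S) →
      (pp (dirH true d e h)).1 = 0 := by decide
  have hax := eCan_even hl
  have hd0 : (pp d).1 = 0 := by
    rcases axis2 hd with rfl | rfl <;> rfl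
  have hx : (cr true eCan (v, d) h k).1 = v.1 + (pp (dirH true d (eCan (v, d)) k)).1 := by
    unfold cr dA
    rw [crn_fst, key d _ hd hax h hh, hd0]
    ring
  constructor
  · intro h4
    rw [hx]
    have he : eCan (v, d) = Dir.nx := by
      rw [eCan, dk_0 h4]; rfl
    rw [he]
    rcases hk with rfl | rfl
    · show v.1 + 0 = _
      rw [add_zero, if_pos rfl]
    · show v.1 + 1 = _
      rw [if_neg (by decide)]
  · intro h4
    rw [hx]
    have he : eCan (v, d) = Dir.px := by
      rw [eCan, dk_2 h4]; rfl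
    rw [he]
    rcases hk with rfl | rfl
    · show v.1 + 1 = _
      rw [if_pos rfl]
    · show v.1 + 0 = _
      rw [add_zero, if_neg (by decide)]

/-- The colours at a flat face of a level divisible by 4. -/
theorem flat_col0 (hF : FlatEven P) {A : Face} (hA : IsFace P A) (hw : ¬ Wall A)
    (h4 : lev A % 4 = 0) {h k : Hd} (hh : h = Hd.N ∨ h = Hd.S) (hk : k = Hd.E ∨ k = Hd.W) :
    cTie P (cr true eCan A h k) = true ↔
      ((cr true eCan A h k).1 % 4 = 1 ∨ OnF P Dir.px (cr true eCan A h k)) := by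
  have hz := flat_cr_z hw (hF A hA hw) hh hk
  rw [cTie_01 (Or.inl (by rw [hz]; exact h4)), base_even (by rw [hz]; omega)]

/-- The colours at a flat face of a level congruent to 2 modulo 4. -/
theorem flat_col2 (hF : FlatEven P) {A : Face} (hA : IsFace P A) (hw : ¬ Wall A)
    (h4 : lev A % 4 = 2) {h k : Hd} (hh : h = Hd.N ∨ h = Hd.S) (hk : k = Hd.E ∨ k = Hd.W) :
    cTie P (cr true eCan A h k) = false ↔
      ((cr true eCan A h k).1 % 4 = 1 ∨ OnF P Dir.px (cr true eCan A h k)) := by
  have hz := flat_cr_z hw (hF A hA hw) hh hk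
  rw [cTie_23 (Or.inl (by rw [hz]; exact h4)), Bool.not_eq_false', base_even (by rw [hz]; omega)]

theorem lev_mod {A : Face} (h : lev A % 2 = 0) : lev A % 4 = 0 ∨ lev A % 4 = 2 := by omega

section main

variable (hM : Man P) (hB : Blk P) (hF : FlatEven P) (hN : NoOpp P Dir.px)

include hM hB hF hN

theorem cTie_backOut' : ∀ A, IsFace P A → BackOut true eCan (cTie P) A →
    (¬ Wall A ∧ (lev A % 4 = 0 → A.1.1 % 4 = 3) ∧ (lev A % 4 = 2 → A.1.1 % 4 = 0)) ∧
    cTie P (cr true eCan A Hd.S Hd.E) = false ∧ cTie P (cr true eCan A Hd.N Hd.E) = false := by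
  intro A hA h
  have hw : ¬ Wall A := by
    intro hw
    have := wall_mono hM hB hF hN hA hw (Or.inr rfl) h.1
    rw [h.2] at this
    exact absurd this (by decide)
  have hl := hF A hA hw
  have x1 := flat_cr_x hw hl (Or.inr rfl : Hd.S = Hd.N ∨ Hd.S = Hd.S) (Or.inr rfl : Hd.W = Hd.E ∨ Hd.W = Hd.W)
  have x2 := flat_cr_x hw hl (Or.inl rfl : Hd.N = Hd.N ∨ Hd.N = Hd.S) (Or.inr rfl : Hd.W = Hd.E ∨ Hd.W = Hd.W)
  have x3 := flat_cr_x hw hl (Or.inr rfl : Hd.S = Hd.N ∨ Hd.S = Hd.S) (Or.inl rfl : Hd.E = Hd.E ∨ Hd.E = Hd.W)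
  have x4 := flat_cr_x hw hl (Or.inl rfl : Hd.N = Hd.N ∨ Hd.N = Hd.S) (Or.inl rfl : Hd.E = Hd.E ∨ Hd.E = Hd.W)
  rw [if_neg (by decide), if_neg (by decide)] at x1 x2
  rw [if_pos rfl, if_pos rfl] at x3 x4
  obtain ⟨h1, h2⟩ := h
  rcases lev_mod hl with h4 | h4
  · have y1 := x1.1 h4
    have y2 := x2.1 h4
    have y3 := x3.1 h4
    have y4 := x4.1 h4
    rw [flat_col0 hF hA hw h4 (Or.inr rfl) (Or.inr rfl), y1] at h1
    rw [← Bool.not_eq_true, flat_col0 hF hA hw h4 (Or.inl rfl) (Or.inr rfl), y2, not_or] at h2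
    have h0 : (A.1.1 + 1) % 4 = 0 := by
      rcases h1 with h1 | h1
      · exact absurd h1 h2.1
      · have := onF_px_mod hB h1
        rwa [y1] at this
    refine ⟨⟨hw, fun _ => by omega, fun h => by omega⟩, ?_, ?_⟩
    · rw [← Bool.not_eq_true, flat_col0 hF hA hw h4 (Or.inr rfl) (Or.inl rfl), y3, not_or]
      refine ⟨by omega, fun hc => ?_⟩
      have := onF_px_mod hB hc
      rw [y3] at this
      omega
    · rw [← Bool.not_eq_true, flat_col0 hF hA hw h4 (Or.inl rfl) (Or.inl rfl), y4, not_or]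
      refine ⟨by omega, fun hc => ?_⟩
      have := onF_px_mod hB hc
      rw [y4] at this
      omega
  · have y1 := x1.2 h4
    have y2 := x2.2 h4
    have y3 := x3.2 h4
    have y4 := x4.2 h4
    rw [← Bool.not_eq_false, flat_col2 hF hA hw h4 (Or.inr rfl) (Or.inr rfl), y1, not_or] at h1
    rw [flat_col2 hF hA hw h4 (Or.inl rfl) (Or.inr rfl), y2] at h2
    have h0 : A.1.1 % 4 = 0 := by
      rcases h2 with h2 | h2
      · exact absurd h2 h1.1
      · have := onF_px_mod hB h2
        rwa [y2] at this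
    refine ⟨⟨hw, fun h => by omega, fun _ => h0⟩, ?_, ?_⟩
    · rw [flat_col2 hF hA hw h4 (Or.inr rfl) (Or.inl rfl), y3]
      left; omega
    · rw [flat_col2 hF hA hw h4 (Or.inl rfl) (Or.inl rfl), y4]
      left; omega

theorem cTie_backIn' : ∀ A, IsFace P A → BackIn true eCan (cTie P) A →
    (¬ Wall A ∧ (lev A % 4 = 0 → A.1.1 % 4 = 0) ∧ (lev A % 4 = 2 → A.1.1 % 4 = 3)) ∧
    cTie P (cr true eCan A Hd.S Hd.W) = true ∧ cTie P (cr true eCan A Hd.N Hd.W) = true := by
  intro A hA h
  have hw : ¬ Wall A := by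
    intro hw
    have := wall_mono hM hB hF hN hA hw (Or.inl rfl) h.1
    rw [h.2] at this
    exact absurd this (by decide)
  have hl := hF A hA hw
  have x1 := flat_cr_x hw hl (Or.inr rfl : Hd.S = Hd.N ∨ Hd.S = Hd.S) (Or.inr rfl : Hd.W = Hd.E ∨ Hd.W = Hd.W)
  have x2 := flat_cr_x hw hl (Or.inl rfl : Hd.N = Hd.N ∨ Hd.N = Hd.S) (Or.inr rfl : Hd.W = Hd.E ∨ Hd.W = Hd.W)
  have x3 := flat_cr_x hw hl (Or.inr rfl : Hd.S = Hd.N ∨ Hd.S = Hd.S) (Or.inl rfl : Hd.E = Hd.E ∨ Hd.E = Hd.W)
  have x4 := flat_cr_x hw hl (Or.inl rfl : Hd.N = Hd.N ∨ Hd.N = Hd.S) (Or.inl rfl : Hd.E = Hd.E ∨ Hd.E = Hd.W)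
  rw [if_neg (by decide), if_neg (by decide)] at x1 x2
  rw [if_pos rfl, if_pos rfl] at x3 x4
  obtain ⟨h1, h2⟩ := h
  rcases lev_mod hl with h4 | h4
  · have y1 := x1.1 h4
    have y2 := x2.1 h4
    have y3 := x3.1 h4
    have y4 := x4.1 h4
    rw [flat_col0 hF hA hw h4 (Or.inr rfl) (Or.inl rfl), y3] at h1
    rw [← Bool.not_eq_true, flat_col0 hF hA hw h4 (Or.inl rfl) (Or.inl rfl), y4, not_or] at h2
    have h0 : A.1.1 % 4 = 0 := by
      rcases h1 with h1 | h1
      · exact absurd h1 h2.1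
      · have := onF_px_mod hB h1
        rwa [y3] at this
    refine ⟨⟨hw, fun _ => h0, fun h => by omega⟩, ?_, ?_⟩
    · rw [flat_col0 hF hA hw h4 (Or.inr rfl) (Or.inr rfl), y1]
      left; omega
    · rw [flat_col0 hF hA hw h4 (Or.inl rfl) (Or.inr rfl), y2]
      left; omega
  · have y1 := x1.2 h4
    have y2 := x2.2 h4
    have y3 := x3.2 h4
    have y4 := x4.2 h4
    rw [← Bool.not_eq_false, flat_col2 hF hA hw h4 (Or.inr rfl) (Or.inl rfl), y3, not_or] at h1
    rw [flat_col2 hF hA hw h4 (Or.inl rfl) (Or.inl rfl), y4] at h2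
    have h0 : (A.1.1 + 1) % 4 = 0 := by
      rcases h2 with h2 | h2
      · exact absurd h2 h1.1
      · have := onF_px_mod hB h2
        rwa [y4] at this
    refine ⟨⟨hw, fun h => by omega, fun _ => by omega⟩, ?_, ?_⟩
    · rw [← Bool.not_eq_false, flat_col2 hF hA hw h4 (Or.inr rfl) (Or.inr rfl), y1, not_or]
      refine ⟨by omega, fun hc => ?_⟩
      have := onF_px_mod hB hc
      rw [y1] at this
      omega
    · rw [← Bool.not_eq_false, flat_col2 hF hA hw h4 (Or.inl rfl) (Or.inr rfl), y2, not_or]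
      refine ⟨by omega, fun hc => ?_⟩
      have := onF_px_mod hB hc
      rw [y2] at this
      omega

theorem cTie_backOut : ∀ A, IsFace P A → BackOut true eCan (cTie P) A →
    ¬ Wall A ∧ (lev A % 4 = 0 → A.1.1 % 4 = 3) ∧ (lev A % 4 = 2 → A.1.1 % 4 = 0) :=
  fun A hA h => (cTie_backOut' hM hB hF hN A hA h).1

theorem cTie_backIn : ∀ A, IsFace P A → BackIn true eCan (cTie P) A →
    ¬ Wall A ∧ (lev A % 4 = 0 → A.1.1 % 4 = 0) ∧ (lev A % 4 = 2 → A.1.1 % 4 = 3) :=
  fun A hA h => (cTie_backIn' hM hB hF hN A hA h).1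

omit hM in
/-- A lateral side between a flat face and a wall has two ends of the same colour. -/
theorem flat_side {A : Face} (hA : IsFace P A) (hw : ¬ Wall A) {k : Hd} (hk : k = Hd.E ∨ k = Hd.W)
    (hB' : Wall (nb P true eCan A k)) :
    cTie P (cr true eCan A Hd.S k) = cTie P (cr true eCan A Hd.N k) := by
  have hl := hF A hA hw
  have hax := eCan_even hl
  have z1 := flat_cr_z hw hl (Or.inr rfl : Hd.S = Hd.N ∨ Hd.S = Hd.S) hk
  have z2 := flat_cr_z hw hl (Or.inl rfl : Hd.N = Hd.N ∨ Hd.N = Hd.S) hk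
  -- the neighbour has normal `px` or `nx` and the corners lie on it
  have hd : A.2.axis = 2 := axis_not_wall hw
  have hpt : Dir.perp A.2 (dA true eCan A k) = true := perp_dirH true _ _ (perp_eCan A) k
  have key1 : ∀ (d e : Dir) (k : Hd), d.axis = 2 → e.axis = 0 → (k = Hd.E ∨ k = Hd.W) →
      (dirH true d e k).axis = 0 := by decide
  have ht0 : (dA true eCan A k).axis = 0 := key1 _ _ _ hd hax hk
  have hBax : (nb P true eCan A k).2.axis = 0 := by
    obtain ⟨v, d⟩ := A
    have e1 : nb P true eCan (v, d) k = (nbr P (v, d) (dA true eCan (v, d) k)).1 := rfl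
    rw [e1] at hB' ⊢
    rcases nbr_cases P v d (dA true eCan (v, d) k) with ⟨-, e⟩ | ⟨-, -, e⟩ | ⟨-, -, e⟩
    · rw [e]
      change (dA true eCan (v, d) k).neg.axis = 0
      rw [neg_axis]; exact ht0
    · rw [e] at hB'
      exact absurd hd hB'
    · rw [e]
      exact ht0
  have hon : ∀ h : Hd, (h = Hd.N ∨ h = Hd.S) →
      OnF P (nb P true eCan A k).2 (cr true eCan A h k) := by
    intro h hh
    have hback : Dir.perp (nbr P A (dA true eCan A k)).1.2 (nbr P A (dA true eCan A k)).2 = true :=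
      perp_nbr (v := A.1) (d := A.2) hpt
    have haxb : (nbr P A (dA true eCan A k)).2.axis = 2 := by
      obtain ⟨v, d⟩ := A
      have e1 : nb P true eCan (v, d) k = (nbr P (v, d) (dA true eCan (v, d) k)).1 := rfl
      rw [e1] at hB'
      rcases nbr_cases P v d (dA true eCan (v, d) k) with ⟨-, e⟩ | ⟨-, -, e⟩ | ⟨-, -, e⟩
      · rw [e]
        change d.neg.axis = 2
        rw [neg_axis]; exact hd
      · rw [e] at hB'
        exact absurd hd hB'
      · rw [e]
        exact hd
    have hw1 : (dA true eCan A h).axis = 1 := by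
      have key : ∀ (d e : Dir) (h : Hd), d.axis = 2 → e.axis = 0 → (h = Hd.N ∨ h = Hd.S) →
          (dirH true d e h).axis = 1 := by decide
      exact key _ _ _ hd hax hh
    refine ⟨nb P true eCan A k, (nbr P A (dA true eCan A k)).2, dA true eCan A h, isFace_nbr hA,
      rfl, hback, ?_, ?_, ?_⟩
    · unfold Dir.perp
      rw [decide_eq_true_iff, hBax, hw1]; decide
    · unfold Dir.perp
      rw [decide_eq_true_iff, haxb, hw1]; decide
    · have := crn_nbr P A (dA true eCan A k) (dA true eCan A h)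
      unfold cr
      rw [crn_comm A (dA true eCan A h)]
      exact this
  have hb : base P (cr true eCan A Hd.S k) = base P (cr true eCan A Hd.N k) := by
    rcases axis_0 _ hBax with hpx | hnx
    · have o1 := hon Hd.S (Or.inr rfl)
      have o2 := hon Hd.N (Or.inl rfl)
      rw [hpx] at o1 o2
      rw [(base_even (by rw [z1]; exact hl)).2 (Or.inr o1),
        (base_even (by rw [z2]; exact hl)).2 (Or.inr o2)]
    · have o1 := hon Hd.S (Or.inr rfl)
      have o2 := hon Hd.N (Or.inl rfl)
      rw [hnx] at o1 o2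
      have f1 : base P (cr true eCan A Hd.S k) = false := by
        rw [← Bool.not_eq_true, base_even (by rw [z1]; exact hl), not_or]
        have := onF_nx_mod hB o1
        exact ⟨by omega, fun hc => hN _ hc o1⟩
      have f2 : base P (cr true eCan A Hd.N k) = false := by
        rw [← Bool.not_eq_true, base_even (by rw [z2]; exact hl), not_or]
        have := onF_nx_mod hB o2
        exact ⟨by omega, fun hc => hN _ hc o2⟩
      rw [f1, f2]
  unfold cTie
  rw [z1, z2, hb]

/-- Lateral sides that are not compatible have ends of the same colour. -/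
theorem lat_cmp {A : Face} (hA : IsFace P A) {k : Hd} (hk : k = Hd.E ∨ k = Hd.W)
    (hne : cTie P (cr true eCan A Hd.S k) ≠ cTie P (cr true eCan A Hd.N k)) :
    Cmp P true eCan A k := by
  by_cases hw : Wall A
  · -- walls
    have hS : cTie P (cr true eCan A Hd.S k) = false := by
      by_contra hc
      rw [Bool.not_eq_false] at hc
      exact hne (hc.trans (wall_mono hM hB hF hN hA hw hk hc).symm)
    have hNt : cTie P (cr true eCan A Hd.N k) = true := by
      by_contra hc
      rw [Bool.not_eq_true] at hc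
      exact hne (hS.trans hc.symm)
    have hB1 : IsFace P (nb P true eCan A k) := isFace_nbr hA
    have hwB : Wall (nb P true eCan A k) := wall_lat hw hk
    have hperp : ∀ A, IsFace P A → Dir.perp A.2 (eCan A) = true := fun A _ => perp_eCan A
    obtain ⟨m, hm⟩ := exists_back (σ := true) hperp k hA
    obtain ⟨s1, s2⟩ := side_corners (perp_eCan A) (perp_eCan _) hm
    rcases hk with rfl | rfl
    · simp only [Hd.left, Hd.opp] at s1 s2
      rw [cr_comm true eCan A Hd.E Hd.S] at s1
      rw [cr_comm true eCan A Hd.E Hd.N] at s2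
      cases m with
      | W => exact hm
      | E =>
        exfalso
        have := wall_mono hM hB hF hN hB1 hwB (Or.inl rfl)
        simp only [Hd.left, Hd.opp] at s1 s2
        rw [cr_comm true eCan _ Hd.S Hd.E, cr_comm true eCan _ Hd.N Hd.E, s1, s2, hS, hNt] at this
        exact absurd (this rfl) (by decide)
      | N =>
        exfalso
        have := tie_top hM hB hF hN hB1 (Or.inr rfl) (not_cmp_back hperp hA hm (by decide))
        simp only [Hd.left, Hd.opp] at s1 s2
        rw [s1, hS] at this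
        exact absurd this (by decide)
      | S =>
        exfalso
        have := tie_bot hM hB hF hN hB1 (Or.inr rfl) (not_cmp_back hperp hA hm (by decide))
        simp only [Hd.left, Hd.opp] at s1 s2
        rw [s2, hNt] at this
        exact absurd this (by decide)
    · simp only [Hd.left, Hd.opp] at s1 s2
      rw [cr_comm true eCan A Hd.W Hd.N] at s1
      rw [cr_comm true eCan A Hd.W Hd.S] at s2
      cases m with
      | E => exact hm
      | W =>
        exfalso
        have := wall_mono hM hB hF hN hB1 hwB (Or.inr rfl)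
        simp only [Hd.left, Hd.opp] at s1 s2
        rw [cr_comm true eCan _ Hd.S Hd.W, cr_comm true eCan _ Hd.N Hd.W, s1, s2, hS, hNt] at this
        exact absurd (this rfl) (by decide)
      | N =>
        exfalso
        have := tie_top hM hB hF hN hB1 (Or.inl rfl) (not_cmp_back hperp hA hm (by decide))
        simp only [Hd.left, Hd.opp] at s1 s2
        rw [s2, hS] at this
        exact absurd this (by decide)
      | S =>
        exfalso
        have := tie_bot hM hB hF hN hB1 (Or.inl rfl) (not_cmp_back hperp hA hm (by decide))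
        simp only [Hd.left, Hd.opp] at s1 s2
        rw [s1, hNt] at this
        exact absurd this (by decide)
  · -- flat faces
    have hwB : ¬ Wall (nb P true eCan A k) := fun h => hne (flat_side hB hF hN hA hw hk h)
    obtain ⟨v, d⟩ := A
    have hd : d.axis = 2 := axis_not_wall hw
    have hl := hF _ hA hw
    have hax := eCan_even hl
    have key1 : ∀ (d e : Dir) (k : Hd), d.axis = 2 → e.axis = 0 → (k = Hd.E ∨ k = Hd.W) →
        (dirH true d e k).axis = 0 := by decide
    have ht0 : (dA true eCan (v, d) k).axis = 0 := key1 _ _ _ hd hax hk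
    have e1 : nb P true eCan (v, d) k = (nbr P (v, d) (dA true eCan (v, d) k)).1 := rfl
    unfold Cmp
    rw [e1] at hwB ⊢
    rcases nbr_cases P v d (dA true eCan (v, d) k) with ⟨-, e⟩ | ⟨-, -, e⟩ | ⟨-, -, e⟩
    · exfalso
      apply hwB
      rw [e]
      change (dA true eCan (v, d) k).neg.axis ≠ 2
      rw [neg_axis, ht0]; decide
    · rw [e]
      simp only
      have hv : (v + (dA true eCan (v, d) k).vec).2.2 = v.2.2 := by
        rw [add_z, vec_z_of_axis _ (by rw [ht0]; decide), add_zero]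
      change (dA true eCan (v, d) k).neg =
        dirH true d (eCan (v + (dA true eCan (v, d) k).vec, d)) k.opp
      rw [eCan_translate hv, dirH_opp]
      rfl
    · exfalso
      apply hwB
      rw [e]
      change (dA true eCan (v, d) k).axis ≠ 2
      rw [ht0]; decide

/-- **The colouring is a field with back steps.** -/
theorem cTie_isBField : IsBField P true eCan (cTie P) where
  perp := fun A _ => perp_eCan A
  topE := fun _ hA h => tie_top hM hB hF hN hA (Or.inl rfl) h
  topW := fun _ hA h => tie_top hM hB hF hN hA (Or.inr rfl) h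
  botE := fun _ hA h => tie_bot hM hB hF hN hA (Or.inl rfl) h
  botW := fun _ hA h => tie_bot hM hB hF hN hA (Or.inr rfl) h
  backOut := fun A hA h => (cTie_backOut' hM hB hF hN A hA h).2
  backIn := fun A hA h => (cTie_backIn' hM hB hF hN A hA h).2
  latE := fun _ hA h => lat_cmp hM hB hF hN hA (Or.inl rfl) h
  latW := fun _ hA h => lat_cmp hM hB hF hN hA (Or.inr rfl) h
  noRing := fun _ hA => noRing P hA

end main

/-! ### Columns -/

/-- Going up keeps the level modulo 4 and, on even levels, the first coordinate. -/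
theorem up_inv {A B : Face} (h : Up P true eCan (UU P true eCan) A B) :
    lev A % 4 = lev B % 4 ∧ (lev A % 2 = 0 → A.1.1 = B.1.1) := by
  obtain ⟨⟨hA, hc⟩, rfl⟩ := h
  constructor
  · by_contra hne
    exact eCan_ne hne ((cmp_iff (Or.inl rfl)).1 hc).symm
  · intro hl
    obtain ⟨v, d⟩ := A
    have hax := eCan_even hl
    have hd : d.axis ≠ 0 := by
      intro h0
      have := (lev_wall_x (v := v) h0).1
      omega
    have key : ∀ d e : Dir, Dir.perp d e = true → e.axis = 0 →
        (dirH true d e Hd.N).axis ≠ 0 := by decide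
    have ht := key d (eCan (v, d)) (perp_eCan (v, d)) hax
    have kv : ∀ t : Dir, t.axis ≠ 0 → t.vec.1 = 0 := by decide
    have e1 : nb P true eCan (v, d) Hd.N = (nbr P (v, d) (dA true eCan (v, d) Hd.N)).1 := rfl
    have htv : (dA true eCan (v, d) Hd.N).vec.1 = 0 := kv _ ht
    rw [e1]
    rcases nbr_cases P v d (dA true eCan (v, d) Hd.N) with ⟨-, e⟩ | ⟨-, -, e⟩ | ⟨-, -, e⟩
    · rw [e]
      simp only [Prod.fst_add, htv, kv d hd, add_zero]
    · rw [e]
      simp only [Prod.fst_add, htv, add_zero]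
    · rw [e]

theorem col_inv {A B : Face} (h : EqvGen (Up P true eCan (UU P true eCan)) A B) :
    lev A % 4 = lev B % 4 ∧ (lev A % 2 = 0 → A.1.1 = B.1.1) := by
  induction h with
  | rel A B h => exact up_inv h
  | refl A => exact ⟨rfl, fun _ => rfl⟩
  | symm A B _ ih => exact ⟨ih.1.symm, fun h => (ih.2 (by omega)).symm⟩
  | trans A B C _ _ ih1 ih2 =>
    exact ⟨ih1.1.trans ih2.1, fun h => (ih1.2 h).trans (ih2.2 (by omega))⟩

theorem cTie_excl (hM : Man P) (hB : Blk P) (hF : FlatEven P) (hN : NoOpp P Dir.px) :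
    Excl P true eCan (cTie P) := by
  intro A B hA hB' h1 h2 h
  obtain ⟨k1, k2⟩ := col_inv h
  obtain ⟨w1, a1, a2⟩ := cTie_backIn hM hB hF hN A hA h1
  obtain ⟨w2, b1, b2⟩ := cTie_backOut hM hB hF hN B hB' h2
  have hl := hF A hA w1
  have hx := k2 hl
  rcases lev_mod hl with h4 | h4
  · have c1 := a1 h4
    have c2 := b1 (by omega)
    rw [hx] at c1
    omega
  · have c1 := a2 h4
    have c2 := b2 (by omega)
    rw [hx] at c1
    omega

end Pool.Agent.Helper48.TIE
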